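import Pool.Agent.H82.FP.Targets
import Pool.Agent.H63.KL.LWK

/-!
# LW4: Loomis-Whitney in dimension four
-/

set_option autoImplicit false

namespace Pool.Agent.H19.FP

open MeasureTheory Set
open scoped ENNReal NNReal
open Pool.Agent.H82.FP

theorem pf_LW4 : T_LW4 := by
  refine ⟨1, one_pos, fun f hf hind => ?_⟩
  rw [ENNReal.ofReal_one, one_mul]
  exact Pool.Agent.H63.KL.loomis_whitney (k := 4) (by norm_num) hf hind (by norm_num)

end Pool.Agent.H19.FP
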