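import Pool.Agent.H82.FP.Targets

/-!
# MKI: multilinear Kakeya for lines close to the axes (Guth's induction)
-/

set_option autoImplicit false

namespace Pool.Agent.H19.FP.I

open MeasureTheory Set
open scoped ENNReal NNReal
open Pool.Agent.H82.FP

lemma Qc_eq (c : V4) (ρ : ℝ) : Qc c ρ = Set.pi univ fun j => Ico (c j) (c j + ρ) := by
  ext x
  simp [Qc]

lemma meas_Qc (c : V4) (ρ : ℝ) : MeasurableSet (Qc c ρ) := by
  rw [Qc_eq]
  exact MeasurableSet.univ_pi fun j => measurableSet_Ico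

lemma vol_Qc (c : V4) {ρ : ℝ} (hρ : 0 ≤ ρ) : volume (Qc c ρ) = ENNReal.ofReal (ρ ^ 4) := by
  rw [Qc_eq, Real.volume_pi_Ico]
  simp [← ENNReal.ofReal_pow hρ]

lemma Qc_split (c : V4) (N : ℕ) {ρ : ℝ} (hρ : 0 < ρ) :
    Qc c (N * ρ) = ⋃ k : Fin 4 → Fin N, Qc (fun j => c j + ((k j : ℕ) : ℝ) * ρ) ρ := by
  ext x
  rw [mem_iUnion]
  constructor
  · intro hx
    have h1 : ∀ j, ⌊(x j - c j) / ρ⌋₊ < N := by
      intro j
      rw [Nat.floor_lt (div_nonneg (by linarith [(hx j).1]) hρ.le), div_lt_iff₀ hρ]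
      linarith [(hx j).2]
    refine ⟨fun j => ⟨⌊(x j - c j) / ρ⌋₊, h1 j⟩, fun j => ?_⟩
    have h2 : 0 ≤ (x j - c j) / ρ := div_nonneg (by linarith [(hx j).1]) hρ.le
    have h3 := Nat.floor_le h2
    have h4 := Nat.lt_floor_add_one ((x j - c j) / ρ)
    rw [le_div_iff₀ hρ] at h3
    rw [div_lt_iff₀ hρ] at h4
    constructor
    · show c j + (⌊(x j - c j) / ρ⌋₊ : ℝ) * ρ ≤ x j
      linarith
    · show x j < c j + (⌊(x j - c j) / ρ⌋₊ : ℝ) * ρ + ρ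
      linarith
  · rintro ⟨k, hk⟩ j
    have h1 : ((k j : ℕ) : ℝ) + 1 ≤ N := by exact_mod_cast (k j).2
    have h2 : (0 : ℝ) ≤ ((k j : ℕ) : ℝ) := Nat.cast_nonneg _
    have h3 : c j + ((k j : ℕ) : ℝ) * ρ ≤ x j ∧ x j < c j + ((k j : ℕ) : ℝ) * ρ + ρ := hk j
    have h4 : (((k j : ℕ) : ℝ) + 1) * ρ ≤ N * ρ := by gcongr
    have h5 : 0 ≤ ((k j : ℕ) : ℝ) * ρ := by positivity
    exact ⟨by linarith [h3.1], by linarith [h3.2]⟩

lemma split_cube (F G : V4 → ℝ≥0∞) (a : ℝ≥0∞) (N : ℕ) {ρ : ℝ} (hρ : 0 < ρ)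
    (h : ∀ c, ∫⁻ x in Qc c ρ, F x ≤ a * ∫⁻ x in Qc c ρ, G x) (c : V4) :
    ∫⁻ x in Qc c (N * ρ), F x ≤ a * ∫⁻ x in Qc c (N * ρ), G x := by
  have hd : Pairwise (Function.onFun Disjoint
      (fun k : Fin 4 → Fin N => Qc (fun j => c j + ((k j : ℕ) : ℝ) * ρ) ρ)) := by
    intro k k' hkk
    refine Set.disjoint_left.2 fun x hx hx' => hkk ?_
    funext j
    have h1 : c j + ((k j : ℕ) : ℝ) * ρ ≤ x j ∧ x j < c j + ((k j : ℕ) : ℝ) * ρ + ρ := hx j
    have h2 : c j + ((k' j : ℕ) : ℝ) * ρ ≤ x j ∧ x j < c j + ((k' j : ℕ) : ℝ) * ρ + ρ := hx' j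
    have h3 : ((k j : ℕ) : ℝ) < ((k' j : ℕ) : ℝ) + 1 := by
      have : ((k j : ℕ) : ℝ) * ρ < (((k' j : ℕ) : ℝ) + 1) * ρ := by linarith [h1.1, h2.2]
      exact lt_of_mul_lt_mul_right this hρ.le
    have h4 : ((k' j : ℕ) : ℝ) < ((k j : ℕ) : ℝ) + 1 := by
      have : ((k' j : ℕ) : ℝ) * ρ < (((k j : ℕ) : ℝ) + 1) * ρ := by linarith [h2.1, h1.2]
      exact lt_of_mul_lt_mul_right this hρ.le
    have h5 : (k j : ℕ) < (k' j : ℕ) + 1 := by exact_mod_cast h3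
    have h6 : (k' j : ℕ) < (k j : ℕ) + 1 := by exact_mod_cast h4
    exact Fin.ext (by omega)
  rw [Qc_split c N hρ, lintegral_iUnion (fun k => meas_Qc _ _) hd,
    lintegral_iUnion (fun k => meas_Qc _ _) hd, ← ENNReal.tsum_mul_left]
  exact ENNReal.tsum_le_tsum fun k => h _

theorem pf_MKI (hMKS : T_MKS) : T_MKI := by
  obtain ⟨C, hC, h⟩ := hMKS
  intro ε hε
  have hC0 : 0 < C := by linarith
  obtain ⟨n, hn⟩ : ∃ n : ℕ, (625 * C) ^ (1 / ε) ≤ n := exists_nat_ge _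
  have h1n : (1 : ℝ) ≤ n := by
    refine le_trans ?_ hn
    exact Real.one_le_rpow (by linarith) (by positivity)
  have hn0 : (0 : ℝ) < n := by linarith
  have hnε : 625 * C ≤ (5 * (n : ℝ)) ^ ε := by
    calc 625 * C = ((625 * C) ^ (1 / ε)) ^ ε := by
          rw [← Real.rpow_mul (by positivity), one_div_mul_cancel hε.ne', Real.rpow_one]
      _ ≤ (5 * (n : ℝ)) ^ ε := by
          refine Real.rpow_le_rpow (by positivity) (hn.trans (by linarith)) hε.le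
  refine ⟨1 / n, 625 * C ^ 2, by positivity, ?_, by positivity, ?_⟩
  · rw [div_le_one hn0]
    exact h1n
  intro S c μ _ hS hN
  obtain ⟨F, hF⟩ : ∃ F : ℝ → V4 → ℝ≥0∞, F = fun W x => ∏ i, μ i (TU W i x) ^ (1 / 3 : ℝ) :=
    ⟨_, rfl⟩
  obtain ⟨a, ha⟩ : ∃ a : ℝ≥0∞, a = ENNReal.ofReal (C * (1 / (n : ℝ)) ^ 4) := ⟨_, rfl⟩
  -- one step
  have hstep : ∀ (W : ℝ), 0 < W → ∀ c, ∫⁻ x in Qc c (n * W), F W x ≤
      a * ∫⁻ x in Qc c (n * W), F (5 * n * W) x := by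
    intro W hW c
    have h1 := h (1 / n) W c μ (by positivity) (by rw [div_le_one hn0]; exact h1n) hW hN
    have e1 : W / (1 / (n : ℝ)) = n * W := by field_simp
    have e2 : 5 * W / (1 / (n : ℝ)) = 5 * n * W := by field_simp
    rw [e1, e2] at h1
    rw [hF, ha]
    exact h1
  -- the induction
  have hind : ∀ J : ℕ, ∀ c, ∫⁻ x in Qc c (n * (5 * (n : ℝ)) ^ J), F 1 x ≤
      a ^ (J + 1) * ∫⁻ x in Qc c (n * (5 * (n : ℝ)) ^ J), F ((5 * (n : ℝ)) ^ (J + 1)) x := by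
    intro J
    induction J with
    | zero =>
      intro c
      have h1 := hstep 1 one_pos c
      simp only [pow_zero, zero_add, pow_one, mul_one] at h1 ⊢
      exact h1
    | succ J ih =>
      intro c
      have h1 := split_cube _ _ _ (5 * n) (ρ := n * (5 * (n : ℝ)) ^ J) (by positivity) ih c
      have e1 : ((5 * n : ℕ) : ℝ) * (n * (5 * (n : ℝ)) ^ J) = n * (5 * (n : ℝ)) ^ (J + 1) := by
        push_cast
        ring
      rw [e1] at h1
      have h2 := hstep ((5 * (n : ℝ)) ^ (J + 1)) (by positivity) c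
      have e2 : 5 * (n : ℝ) * (5 * (n : ℝ)) ^ (J + 1) = (5 * (n : ℝ)) ^ (J + 1 + 1) := by ring
      rw [e2] at h2
      calc ∫⁻ x in Qc c (n * (5 * (n : ℝ)) ^ (J + 1)), F 1 x
          ≤ a ^ (J + 1) * ∫⁻ x in Qc c (n * (5 * (n : ℝ)) ^ (J + 1)),
            F ((5 * (n : ℝ)) ^ (J + 1)) x := h1
        _ ≤ a ^ (J + 1) * (a * ∫⁻ x in Qc c (n * (5 * (n : ℝ)) ^ (J + 1)),
            F ((5 * (n : ℝ)) ^ (J + 1 + 1)) x) := by gcongr
        _ = a ^ (J + 1 + 1) * ∫⁻ x in Qc c (n * (5 * (n : ℝ)) ^ (J + 1)),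
            F ((5 * (n : ℝ)) ^ (J + 1 + 1)) x := by rw [← mul_assoc, ← pow_succ]
  -- the scale
  obtain ⟨J, hJ1, hJ2⟩ := exists_nat_pow_near hS (by linarith : (1 : ℝ) < 5 * (n : ℝ))
  have hSρ : S ≤ n * (5 * (n : ℝ)) ^ (J + 1) := by
    have : (0 : ℝ) < (5 * (n : ℝ)) ^ (J + 1) := by positivity
    nlinarith
  obtain ⟨M, hM⟩ : ∃ M : ℝ≥0∞, M = ∏ i, μ i univ ^ (1 / 3 : ℝ) := ⟨_, rfl⟩
  have hFM : ∀ W x, F W x ≤ M := by
    intro W x
    rw [hF, hM]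
    refine Finset.prod_le_prod' fun i _ => ?_
    exact ENNReal.rpow_le_rpow (measure_mono (subset_univ _)) (by norm_num)
  have hfin : ∫⁻ x in Qc c S, F 1 x ≤ ENNReal.ofReal (625 * C ^ 2 * (625 * C) ^ J) * M := by
    calc ∫⁻ x in Qc c S, F 1 x
        ≤ ∫⁻ x in Qc c (n * (5 * (n : ℝ)) ^ (J + 1)), F 1 x := by
          refine lintegral_mono_set fun x hx j => ⟨(hx j).1, ?_⟩
          linarith [(hx j).2]
      _ ≤ a ^ (J + 1 + 1) * ∫⁻ x in Qc c (n * (5 * (n : ℝ)) ^ (J + 1)),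
            F ((5 * (n : ℝ)) ^ (J + 1 + 1)) x := hind (J + 1) c
      _ ≤ a ^ (J + 1 + 1) * ∫⁻ x in Qc c (n * (5 * (n : ℝ)) ^ (J + 1)), M := by
          gcongr with x
          exact hFM _ _
      _ = ENNReal.ofReal (625 * C ^ 2 * (625 * C) ^ J) * M := by
          rw [setLIntegral_const, vol_Qc c (by positivity), ha,
            ← ENNReal.ofReal_pow (by positivity), mul_comm M, ← mul_assoc,
            ← ENNReal.ofReal_mul (by positivity)]
          congr 2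
          rw [mul_pow, mul_pow, mul_pow, mul_pow, ← pow_mul, ← pow_mul, ← pow_mul]
          have e : (1 / (n : ℝ)) ^ (4 * (J + 1 + 1)) * ((n : ℝ) ^ 4 * (n : ℝ) ^ ((J + 1) * 4)) = 1 := by
            rw [← pow_add, show 4 * (J + 1 + 1) = 4 + (J + 1) * 4 by ring, ← mul_pow,
              one_div_mul_cancel hn0.ne', one_pow]
          have e5 : (5 : ℝ) ^ ((J + 1) * 4) = 625 * 625 ^ J := by
            rw [mul_comm, pow_mul]
            norm_num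
            ring
          have eC : C ^ (J + 1 + 1) = C ^ 2 * C ^ J := by ring
          calc C ^ (J + 1 + 1) * (1 / (n : ℝ)) ^ (4 * (J + 1 + 1)) *
                ((n : ℝ) ^ 4 * ((5 : ℝ) ^ ((J + 1) * 4) * (n : ℝ) ^ ((J + 1) * 4)))
              = C ^ (J + 1 + 1) * (5 : ℝ) ^ ((J + 1) * 4) * ((1 / (n : ℝ)) ^ (4 * (J + 1 + 1)) *
                ((n : ℝ) ^ 4 * (n : ℝ) ^ ((J + 1) * 4))) := by ring
            _ = 625 * C ^ 2 * (625 ^ J * C ^ J) := by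
                rw [e, e5, eC]
                ring
            _ = _ := by ring
  rw [hF, hM] at hfin
  refine hfin.trans ?_
  refine mul_le_mul' (ENNReal.ofReal_le_ofReal ?_) le_rfl
  refine mul_le_mul_of_nonneg_left ?_ (by positivity)
  calc (625 * C) ^ J ≤ ((5 * (n : ℝ)) ^ ε) ^ J := by
        exact pow_le_pow_left₀ (by positivity) hnε J
    _ = ((5 * (n : ℝ)) ^ J) ^ ε := by
        rw [← Real.rpow_natCast, ← Real.rpow_mul (by positivity), mul_comm ε,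
          Real.rpow_mul (by positivity), Real.rpow_natCast]
    _ ≤ S ^ ε := Real.rpow_le_rpow (by positivity) hJ1 hε.le

end Pool.Agent.H19.FP.I
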