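import Pool.Agent.H82.FP.Targets

/-!
# MKS: one step of multilinear Kakeya for lines close to the axes
-/

set_option autoImplicit false

namespace Pool.Agent.H19.FP

open MeasureTheory Set
open scoped ENNReal NNReal
open Pool.Agent.H82.FP

lemma Qc_eq (c : V4) (ρ : ℝ) : Qc c ρ = Set.pi univ fun j => Ico (c j) (c j + ρ) := by
  ext x
  simp [Qc]

lemma meas_Qc (c : V4) (ρ : ℝ) : MeasurableSet (Qc c ρ) := by
  rw [Qc_eq]
  exact MeasurableSet.univ_pi fun j => measurableSet_Ico

lemma vol_Qc (c : V4) {ρ : ℝ} (hρ : 0 ≤ ρ) : volume (Qc c ρ) = ENNReal.ofReal (ρ ^ 4) := by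
  rw [Qc_eq, Real.volume_pi_Ico]
  simp [← ENNReal.ofReal_pow hρ]

/-- the point of the line in the hyperplane `x i = t` -/
def Pt (i : Fin 4) (t : ℝ) (l : Ln) : V4 := l.1 + (t - l.1 i) • l.2

lemma meas_Pt (i : Fin 4) (t : ℝ) : Measurable (Pt i t) := by
  unfold Pt
  fun_prop

lemma Pt_apply (i : Fin 4) (t : ℝ) (l : Ln) (j : Fin 4) :
    Pt i t l j = l.1 j + (t - l.1 i) * l.2 j := rfl

/-- the lines which pass close to `x` in the directions other than `i` -/
def GS (W ρ : ℝ) (c : V4) (i : Fin 4) : Set (V4 × Ln) :=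
  {p | (∀ j, j ≠ i → |p.1 j - Pt i (c i) p.2 j| ≤ 2 * W) ∧ ‖c - Pt i (c i) p.2‖ ≤ 3 * ρ}

lemma meas_GS (W ρ : ℝ) (c : V4) (i : Fin 4) : MeasurableSet (GS W ρ c i) := by
  have h1 : Measurable fun p : V4 × Ln => Pt i (c i) p.2 := (meas_Pt i _).comp measurable_snd
  have e : GS W ρ c i = (⋂ j, {p : V4 × Ln | j ≠ i → |p.1 j - Pt i (c i) p.2 j| ≤ 2 * W}) ∩
      {p | ‖c - Pt i (c i) p.2‖ ≤ 3 * ρ} := by
    ext p
    simp [GS]
  rw [e]
  refine (MeasurableSet.iInter fun j => ?_).inter ?_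
  · by_cases hj : j ≠ i
    · simp only [hj, ne_eq, not_false_eq_true, forall_const]
      refine measurableSet_le ?_ measurable_const
      have h2 : Measurable fun p : V4 × Ln => Pt i (c i) p.2 j := (measurable_pi_apply j).comp h1
      have h3 : Measurable fun p : V4 × Ln => p.1 j := (measurable_pi_apply j).comp measurable_fst
      exact (h3.sub h2).norm
    · have : {p : V4 × Ln | j ≠ i → |p.1 j - Pt i (c i) p.2 j| ≤ 2 * W} = univ := by
        ext p
        simp [hj]
      rw [this]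
      exact MeasurableSet.univ
  · exact measurableSet_le (measurable_const.sub h1).norm measurable_const

/-- the volume of the tube in the slab -/
lemma vol_slab {W : ℝ} (hW : 0 < W) (i : Fin 4) (P : V4) :
    volume {a : V4 | (0 ≤ a i ∧ a i < 1) ∧ ∀ j, j ≠ i → |a j - P j| ≤ 2 * W} ≤
      ENNReal.ofReal ((4 * W) ^ 3) := by
  have h1 : {a : V4 | (0 ≤ a i ∧ a i < 1) ∧ ∀ j, j ≠ i → |a j - P j| ≤ 2 * W} ⊆
      Set.pi univ fun j => Icc (if j = i then 0 else P j - 2 * W)
        (if j = i then 1 else P j + 2 * W) := by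
    rintro a ⟨ha, hb⟩ j -
    by_cases hj : j = i
    · subst hj
      simp only [if_true]
      exact ⟨ha.1, ha.2.le⟩
    · simp only [hj, if_false]
      have := abs_le.1 (hb j hj)
      exact ⟨by linarith [this.1], by linarith [this.2]⟩
  refine (measure_mono h1).trans ?_
  rw [Set.pi_univ_Icc, Real.volume_Icc_pi]
  have h2 : ∀ j, ENNReal.ofReal ((if j = i then (1 : ℝ) else P j + 2 * W) -
      (if j = i then 0 else P j - 2 * W)) = if j = i then 1 else ENNReal.ofReal (4 * W) := by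
    intro j
    split_ifs
    · simp
    · congr 1
      ring
  simp_rw [h2]
  rw [ENNReal.ofReal_pow (by positivity)]
  fin_cases i <;> simp [Fin.prod_univ_four] <;> ring_nf <;> rfl

theorem pf_MKS (hLW4 : T_LW4) : T_MKS := by
  obtain ⟨C, hC, h⟩ := hLW4
  refine ⟨256 * C + 1, by linarith, ?_⟩
  intro δ W c μ _ hδ hδ1 hW hN
  obtain ⟨ρ, hρ⟩ : ∃ ρ : ℝ, ρ = W / δ := ⟨_, rfl⟩
  have hρ0 : 0 < ρ := by rw [hρ]; positivity
  have hρδ : ρ * δ = W := by rw [hρ]; field_simp
  have hWρ : W ≤ ρ := by nlinarith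
  have h5 : 5 * W / δ = 5 * ρ := by rw [hρ]; ring
  rw [← hρ, h5]
  -- the majorant
  obtain ⟨g, hg⟩ : ∃ g : Fin 4 → V4 → ℝ≥0∞, g = fun i x => μ i (Prod.mk x ⁻¹' GS W ρ c i) :=
    ⟨_, rfl⟩
  have hgm : ∀ i, Measurable (g i) := by
    intro i
    rw [hg]
    exact measurable_measure_prodMk_left (meas_GS W ρ c i)
  have hgi : ∀ i (a : V4) (t : ℝ), g i (Function.update a i t) = g i a := by
    intro i a t
    rw [hg]
    simp only
    congr 1
    ext l
    simp only [GS, mem_preimage, mem_ofPred_eq]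
    refine and_congr_left fun _ => forall_congr' fun j => forall_congr' fun hj => ?_
    rw [Function.update_of_ne hj]
  obtain ⟨n, hn⟩ : ∃ n : Fin 4 → ℝ≥0∞, n = fun i => μ i {l | ‖c - Pt i (c i) l‖ ≤ 3 * ρ} :=
    ⟨_, rfl⟩
  -- the upper bound by the majorant
  have hup : ∀ x ∈ Qc c ρ, ∀ i, μ i (TU W i x) ≤ g i x := by
    intro x hx i
    rw [hg]
    refine measure_mono_ae ?_
    filter_upwards [hN i] with l hl hlT
    have hlT' : ‖x - l.1 - (x i - l.1 i) • l.2‖ ≤ W := hlT
    show l ∈ Prod.mk x ⁻¹' GS W ρ c i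
    have hxi : |x i - c i| ≤ ρ := by
      rw [abs_le]
      exact ⟨by linarith [(hx i).1], by linarith [(hx i).2]⟩
    have hj : ∀ j, j ≠ i → |x j - Pt i (c i) l j| ≤ 2 * W := by
      intro j hj
      have h1 : |x j - l.1 j - (x i - l.1 i) * l.2 j| ≤ W := by
        have := (norm_le_pi_norm (x - l.1 - (x i - l.1 i) • l.2) j).trans hlT'
        simpa [Real.norm_eq_abs] using this
      have h2 : |(x i - c i) * l.2 j| ≤ W := by
        rw [abs_mul]
        calc |x i - c i| * |l.2 j| ≤ ρ * δ := by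
              gcongr
              exact hl.2 j hj
          _ = W := hρδ
      have h3 : x j - Pt i (c i) l j =
          (x j - l.1 j - (x i - l.1 i) * l.2 j) + (x i - c i) * l.2 j := by
        rw [Pt_apply]
        ring
      rw [h3]
      exact (abs_add_le _ _).trans (by linarith)
    refine ⟨hj, ?_⟩
    refine (pi_norm_le_iff_of_nonneg (by positivity)).2 fun j => ?_
    rw [Pi.sub_apply, Real.norm_eq_abs]
    by_cases hji : j = i
    · subst hji
      show |c j - Pt j (c j) l j| ≤ 3 * ρ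
      rw [Pt_apply, hl.1]
      have : c j - (l.1 j + (c j - l.1 j) * 1) = 0 := by ring
      rw [this, abs_zero]
      positivity
    · have h1 := hj j hji
      have h2 : |c j - x j| ≤ ρ := by
        rw [abs_le]
        exact ⟨by linarith [(hx j).2], by linarith [(hx j).1]⟩
      have h3 : c j - Pt i (c i) l j = (c j - x j) + (x j - Pt i (c i) l j) := by ring
      show |c j - Pt i (c i) l j| ≤ 3 * ρ
      rw [h3]
      exact (abs_add_le _ _).trans (by linarith)
  -- the lower bound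
  have hlo : ∀ x ∈ Qc c ρ, ∀ i, n i ≤ μ i (TU (5 * ρ) i x) := by
    intro x hx i
    rw [hn]
    refine measure_mono_ae ?_
    filter_upwards [hN i] with l hl hlT
    have hlT' : ‖c - Pt i (c i) l‖ ≤ 3 * ρ := hlT
    show ‖x - l.1 - (x i - l.1 i) • l.2‖ ≤ 5 * ρ
    refine (pi_norm_le_iff_of_nonneg (by positivity)).2 fun j => ?_
    have h1 : |c j - Pt i (c i) l j| ≤ 3 * ρ := by
      have := (norm_le_pi_norm (c - Pt i (c i) l) j).trans hlT'
      simpa [Real.norm_eq_abs] using this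
    have hx' : ∀ j, |x j - c j| ≤ ρ := by
      intro j
      rw [abs_le]
      exact ⟨by linarith [(hx j).1], by linarith [(hx j).2]⟩
    have h2 : |l.2 j| ≤ 1 := by
      by_cases hji : j = i
      · subst hji
        rw [hl.1, abs_one]
      · exact (hl.2 j hji).trans hδ1
    have h3 : |(x i - c i) * l.2 j| ≤ ρ := by
      rw [abs_mul]
      calc |x i - c i| * |l.2 j| ≤ ρ * 1 := by
            gcongr
            exact hx' i
        _ = ρ := mul_one _
    have h4 : (x - l.1 - (x i - l.1 i) • l.2) j =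
        (x j - c j) + (c j - Pt i (c i) l j) - (x i - c i) * l.2 j := by
      rw [Pt_apply]
      simp only [Pi.sub_apply, Pi.smul_apply, smul_eq_mul]
      ring
    rw [h4, Real.norm_eq_abs]
    have h5 := abs_sub (x j - c j + (c j - Pt i (c i) l j)) ((x i - c i) * l.2 j)
    have h6 := abs_add_le (x j - c j) (c j - Pt i (c i) l j)
    have h7 := hx' j
    linarith
  -- the slab integrals
  have hslab : ∀ i, (∫⁻ a in {a : V4 | 0 ≤ a i ∧ a i < 1}, g i a) ≤
      ENNReal.ofReal ((4 * W) ^ 3) * n i := by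
    intro i
    have hsm : MeasurableSet {a : V4 | 0 ≤ a i ∧ a i < 1} :=
      (measurableSet_le measurable_const (measurable_pi_apply i)).inter
        (measurableSet_lt (measurable_pi_apply i) measurable_const)
    have h1 : (∫⁻ a in {a : V4 | 0 ≤ a i ∧ a i < 1}, g i a) =
        ∫⁻ l, (volume.restrict {a : V4 | 0 ≤ a i ∧ a i < 1})
          ((fun a => (a, l)) ⁻¹' GS W ρ c i) ∂(μ i) := by
      rw [← Measure.prod_apply_symm (meas_GS W ρ c i), Measure.prod_apply (meas_GS W ρ c i), hg]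
    have hBm : MeasurableSet {l | ‖c - Pt i (c i) l‖ ≤ 3 * ρ} :=
      measurableSet_le (measurable_const.sub (meas_Pt i _)).norm measurable_const
    rw [h1]
    calc ∫⁻ l, (volume.restrict {a : V4 | 0 ≤ a i ∧ a i < 1})
          ((fun a => (a, l)) ⁻¹' GS W ρ c i) ∂(μ i)
        ≤ ∫⁻ l, {l | ‖c - Pt i (c i) l‖ ≤ 3 * ρ}.indicator
            (fun _ => ENNReal.ofReal ((4 * W) ^ 3)) l ∂(μ i) := by
          refine lintegral_mono fun l => ?_
          by_cases hl : ‖c - Pt i (c i) l‖ ≤ 3 * ρ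
          · rw [indicator_of_mem (show l ∈ {l | ‖c - Pt i (c i) l‖ ≤ 3 * ρ} from hl)]
            rw [Measure.restrict_apply' hsm]
            refine le_trans (measure_mono ?_) (vol_slab hW i (Pt i (c i) l))
            rintro a ⟨ha, hb⟩
            exact ⟨hb, ha.1⟩
          · rw [indicator_of_notMem (show l ∉ {l | ‖c - Pt i (c i) l‖ ≤ 3 * ρ} from hl)]
            have : ((fun a => (a, l)) ⁻¹' GS W ρ c i) = ∅ := by
              ext a
              simp only [mem_preimage, mem_empty_iff_false, iff_false]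
              intro ha
              exact hl ha.2
            rw [this]
            simp
      _ = ENNReal.ofReal ((4 * W) ^ 3) * n i := by
          rw [lintegral_indicator_const hBm, hn]
  -- conclusion
  have hmain : ∫⁻ x in Qc c ρ, ∏ i, μ i (TU W i x) ^ (1 / 3 : ℝ) ≤
      ENNReal.ofReal (C * (4 * W) ^ 4) * ∏ i, n i ^ (1 / 3 : ℝ) := by
    calc ∫⁻ x in Qc c ρ, ∏ i, μ i (TU W i x) ^ (1 / 3 : ℝ)
        ≤ ∫⁻ x in Qc c ρ, ∏ i, g i x ^ (1 / 3 : ℝ) := by
          refine setLIntegral_mono' (meas_Qc c ρ) fun x hx => ?_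
          refine Finset.prod_le_prod' fun i _ => ?_
          exact ENNReal.rpow_le_rpow (hup x hx i) (by norm_num)
      _ ≤ ∫⁻ x, ∏ i, g i x ^ (1 / 3 : ℝ) := setLIntegral_le_lintegral _ _
      _ ≤ ENNReal.ofReal C * ∏ i, (∫⁻ a in {a : V4 | 0 ≤ a i ∧ a i < 1}, g i a) ^ (1 / 3 : ℝ) :=
          h g hgm hgi
      _ ≤ ENNReal.ofReal C * ∏ i, (ENNReal.ofReal ((4 * W) ^ 3) * n i) ^ (1 / 3 : ℝ) := by
          refine mul_le_mul' le_rfl (Finset.prod_le_prod' fun i _ => ?_)
          exact ENNReal.rpow_le_rpow (hslab i) (by norm_num)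
      _ = ENNReal.ofReal (C * (4 * W) ^ 4) * ∏ i, n i ^ (1 / 3 : ℝ) := by
          have h1 : ∀ i, (ENNReal.ofReal ((4 * W) ^ 3) * n i) ^ (1 / 3 : ℝ) =
              ENNReal.ofReal (4 * W) * n i ^ (1 / 3 : ℝ) := by
            intro i
            rw [ENNReal.mul_rpow_of_nonneg _ _ (by norm_num : (0 : ℝ) ≤ 1 / 3),
              ENNReal.ofReal_rpow_of_pos (by positivity), ← Real.rpow_natCast,
              ← Real.rpow_mul (by positivity)]
            norm_num
          simp_rw [h1]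
          rw [Finset.prod_mul_distrib, Finset.prod_const, Finset.card_univ, Fintype.card_fin,
            ← mul_assoc, ← ENNReal.ofReal_pow (by positivity), ← ENNReal.ofReal_mul hC.le]
  refine hmain.trans ?_
  have hlow : ENNReal.ofReal (ρ ^ 4) * ∏ i, n i ^ (1 / 3 : ℝ) ≤
      ∫⁻ x in Qc c ρ, ∏ i, μ i (TU (5 * ρ) i x) ^ (1 / 3 : ℝ) := by
    calc ENNReal.ofReal (ρ ^ 4) * ∏ i, n i ^ (1 / 3 : ℝ)
        = ∫⁻ x in Qc c ρ, ∏ i, n i ^ (1 / 3 : ℝ) := by
          rw [setLIntegral_const, vol_Qc c hρ0.le, mul_comm]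
      _ ≤ _ := by
          refine setLIntegral_mono' (meas_Qc c ρ) fun x hx => ?_
          refine Finset.prod_le_prod' fun i _ => ?_
          exact ENNReal.rpow_le_rpow (hlo x hx i) (by norm_num)
  calc ENNReal.ofReal (C * (4 * W) ^ 4) * ∏ i, n i ^ (1 / 3 : ℝ)
      ≤ ENNReal.ofReal ((256 * C + 1) * δ ^ 4) *
        (ENNReal.ofReal (ρ ^ 4) * ∏ i, n i ^ (1 / 3 : ℝ)) := by
        rw [← mul_assoc, ← ENNReal.ofReal_mul (by positivity)]
        refine mul_le_mul' (ENNReal.ofReal_le_ofReal ?_) le_rfl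
        have e : (256 * C + 1) * δ ^ 4 * ρ ^ 4 = (256 * C + 1) * W ^ 4 := by
          rw [← hρδ]
          ring
        rw [e]
        nlinarith [pow_pos hW 4]
    _ ≤ _ := by gcongr

end Pool.Agent.H19.FP
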